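import Pool.Agent.Y198.DC.Stm

/-!
# Project DC, job DC-VAN: vanishing of `Ext^j(R / P_0, R)` for `j ≥ 2`
-/

set_option autoImplicit false

universe u

open CategoryTheory IsLocalRing

namespace Pool.Agent.Y109.DC.VAN

open H503R3.CC Pool.Agent.Y198.DC

variable {R : Type u} [CommRing R]

theorem shift {S : ShortComplex (ModuleCat.{u} R)} (hS : S.ShortExact) [Projective S.X₂]
    (Y : ModuleCat.{u} R) (n : ℕ) [h : Subsingleton (Abelian.Ext S.X₁ Y n)] :
    Subsingleton (Abelian.Ext S.X₃ Y (n + 1)) := by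
  refine subsingleton_of_forall_eq 0 fun e => ?_
  have h2 : Subsingleton (Abelian.Ext S.X₂ Y (n + 1)) :=
    Abelian.Ext.subsingleton_of_projective _ _ _
  obtain ⟨x₁, hx₁⟩ := Abelian.Ext.contravariant_sequence_exact₃ hS Y e
    (Subsingleton.elim _ _) (add_comm 1 n)
  rw [← hx₁, Subsingleton.elim x₁ 0, Abelian.Ext.comp_zero]

theorem of_iso {X X' : ModuleCat.{u} R} (i : X ≅ X') (Y : ModuleCat.{u} R) (n : ℕ)
    (h : Subsingleton (Abelian.Ext X' Y n)) : Subsingleton (Abelian.Ext X Y n) := by
  refine subsingleton_of_forall_eq 0 fun e => ?_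
  have h1 : (Abelian.Ext.mk₀ i.hom).comp ((Abelian.Ext.mk₀ i.inv).comp e (zero_add n))
      (zero_add n) = e := by
    rw [Abelian.Ext.mk₀_comp_mk₀_assoc, i.hom_inv_id, Abelian.Ext.mk₀_id_comp]
  rw [← h1, Subsingleton.elim ((Abelian.Ext.mk₀ i.inv).comp e (zero_add n)) 0,
    Abelian.Ext.comp_zero]

theorem extend [IsDomain R] {x y w : R} (h : Pinch x y w)
    (φ : LinearMap.ker (pinchMap x w) →ₗ[R] R) :
    ∃ g : R × R →ₗ[R] R, φ = g.comp (LinearMap.ker (pinchMap x w)).subtype := by
  let kx : LinearMap.ker (pinchMap x w) := ⟨(-w, x), by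
    rw [LinearMap.mem_ker]
    apply Subtype.ext
    change -w * x + x * w = 0
    ring⟩
  let kw : LinearMap.ker (pinchMap x w) := ⟨(-y, w), by
    rw [LinearMap.mem_ker]
    apply Subtype.ext
    change -y * x + w * w = 0
    linear_combination h.sq⟩
  have h1 : w • kx = x • kw := by
    apply Subtype.ext
    change ((w • (-w, x) : R × R)) = x • (-y, w)
    ext
    · change w * (-w) = x * (-y)
      linear_combination -h.sq
    · change w * x = x * w
      ring
  have h2 : φ kx * w = φ kw * x := by
    have := congrArg φ h1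
    rw [map_smul, map_smul, smul_eq_mul, smul_eq_mul] at this
    linear_combination this
  obtain ⟨s, t, hst⟩ := Ideal.mem_span_pair.mp (h.mem_of_mul h2)
  have h3 : φ kw = s * w + t * y := by
    apply mul_left_cancel₀ h.ne_zero
    rw [← hst] at h2
    linear_combination -h2 + t * h.sq
  refine ⟨s • LinearMap.snd R R R - t • LinearMap.fst R R R, ?_⟩
  ext ⟨⟨a, b⟩, hab⟩
  have h4 : a * x + b * w = 0 := congrArg Subtype.val (LinearMap.mem_ker.mp hab)
  obtain ⟨p, q, hpq⟩ := Ideal.mem_span_pair.mp
    (h.mem_of_mul (b := b) (c := -a) (by linear_combination h4))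
  have h5 : a = -(p * w + q * y) := by
    apply mul_left_cancel₀ h.ne_zero
    rw [← hpq] at h4
    linear_combination h4 - q * h.sq
  have h6 : (⟨(a, b), hab⟩ : LinearMap.ker (pinchMap x w)) = p • kx + q • kw := by
    apply Subtype.ext
    change (a, b) = (p • (-w, x) + q • (-y, w) : R × R)
    ext
    · change a = p * (-w) + q * (-y)
      rw [h5]
      ring
    · change b = p * x + q * w
      exact hpq.symm
  have h7 : φ ⟨(a, b), hab⟩ = p * φ kx + q * φ kw := by
    rw [h6, map_add, map_smul, map_smul, smul_eq_mul, smul_eq_mul]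
  rw [h7]
  change p * φ kx + q * φ kw = s * b - t * a
  rw [h3, ← hst, h5, ← hpq]
  ring

theorem ext_one [IsDomain R] {x y w : R} (h : Pinch x y w) :
    Subsingleton (Abelian.Ext (ModuleCat.of R (Ideal.span {x, w} : Ideal R))
      (ModuleCat.of R R) 1) := by
  have hS := LinearMap.shortExact_shortComplexKer (pinchMap_surjective x w)
  have hP : Projective (ModuleCat.of R (R × R)) := by
    rw [← IsProjective.iff_projective]
    infer_instance
  refine subsingleton_of_forall_eq 0 fun e => ?_
  have h2 : Subsingleton (Abelian.Ext (ModuleCat.of R (R × R)) (ModuleCat.of R R) 1) :=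
    Abelian.Ext.subsingleton_of_projective _ _ 0
  obtain ⟨x₁, hx₁⟩ := Abelian.Ext.contravariant_sequence_exact₃ hS (ModuleCat.of R R) e
    (Subsingleton.elim (h := h2) _ _) (add_comm 1 0)
  obtain ⟨f, rfl⟩ := Abelian.Ext.addEquiv₀.symm.surjective x₁
  obtain ⟨g, hg⟩ := extend h f.hom
  have hf : f = (LinearMap.shortComplexKer (pinchMap x w)).f ≫ ModuleCat.ofHom g := by
    ext k
    exact LinearMap.congr_fun hg k
  rw [← hx₁]
  change _ = _
  have h3 : (Abelian.Ext.addEquiv₀.symm f) =
      (Abelian.Ext.mk₀ (LinearMap.shortComplexKer (pinchMap x w)).f).comp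
        (Abelian.Ext.mk₀ (ModuleCat.ofHom g)) (add_zero 0) := by
    rw [Abelian.Ext.mk₀_comp_mk₀, ← hf]
    rfl
  rw [h3]
  exact hS.extClass_comp_assoc _

theorem ext_ideal [IsDomain R] {x y w : R} (h : Pinch x y w) (j : ℕ) :
    Subsingleton (Abelian.Ext (ModuleCat.of R (Ideal.span {x, w} : Ideal R))
      (ModuleCat.of R R) (j + 1)) := by
  induction j with
  | zero => exact ext_one h
  | succ j ih =>
    have hS := LinearMap.shortExact_shortComplexKer (pinchMap_surjective x w)
    have hP : Projective (LinearMap.shortComplexKer (pinchMap x w)).X₂ := by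
      change Projective (ModuleCat.of R (R × R))
      rw [← IsProjective.iff_projective]
      infer_instance
    have h1 : Subsingleton (Abelian.Ext (LinearMap.shortComplexKer (pinchMap x w)).X₁
        (ModuleCat.of R R) (j + 1)) :=
      of_iso (X := ModuleCat.of R (LinearMap.ker (pinchMap x w))) h.kerEquiv.toModuleIso _ _ ih
    exact shift hS (ModuleCat.of R R) (j + 1)

theorem t : S_VAN.{u} := by
  intro R _ _ _ _ n x w h j
  rw [P_zero]
  have hS := LinearMap.shortExact_shortComplexKer
    (Submodule.mkQ_surjective (Ideal.span {x 0, w} : Ideal R))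
  have hP : Projective (LinearMap.shortComplexKer
      (Submodule.mkQ (Ideal.span {x 0, w} : Ideal R))).X₂ := by
    change Projective (ModuleCat.of R R)
    rw [← IsProjective.iff_projective]
    infer_instance
  have e : LinearMap.ker (Submodule.mkQ (Ideal.span {x 0, w} : Ideal R)) ≃ₗ[R]
      (Ideal.span {x 0, w} : Ideal R) := LinearEquiv.ofEq _ _ (Submodule.ker_mkQ _)
  have h1 : Subsingleton (Abelian.Ext (LinearMap.shortComplexKer
      (Submodule.mkQ (Ideal.span {x 0, w} : Ideal R))).X₁ (ModuleCat.of R R) (j + 1)) :=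
    of_iso (X := ModuleCat.of R (LinearMap.ker (Submodule.mkQ (Ideal.span {x 0, w} : Ideal R))))
      e.toModuleIso _ _ (ext_ideal h.pinch j)
  exact shift hS (ModuleCat.of R R) (j + 1)

end Pool.Agent.Y109.DC.VAN
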